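import Pool.Agent.W2helper96.Sq.Defs

set_option autoImplicit false

/-! # Short cycles and pendant vertices: the combinatorial part -/

namespace Pool.Agent.W2helper96.Sq

open SimpleGraph

variable {V : Type*}

theorem noShortCycle_iff (G : SimpleGraph V) : NoShortCycle G ↔
    (∀ a b c, G.Adj a b → G.Adj b c → G.Adj c a → False) ∧
    (∀ a b c d, a ≠ c → b ≠ d → G.Adj a b → G.Adj b c → G.Adj c d → G.Adj d a → False) := by
  constructor
  · intro h
    refine ⟨fun a b c h1 h2 h3 => ?_, fun a b c d hac hbd h1 h2 h3 h4 => ?_⟩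
    · have hc : (Walk.cons h1 (Walk.cons h2 (Walk.cons h3 Walk.nil))).IsCycle := by
        rw [Walk.cons_isCycle_iff]
        have hab := h1.ne
        have hbc := h2.ne
        have hca := h3.ne
        refine ⟨?_, ?_⟩
        · simp [Walk.cons_isPath_iff, hbc, hca, hab.symm]
        · simp only [Walk.edges_cons, Walk.edges_nil, List.mem_cons, List.not_mem_nil, or_false,
            Sym2.eq_iff, not_or]
          tauto
      have := h a _ hc
      simp at this
    · have hc : (Walk.cons h1 (Walk.cons h2 (Walk.cons h3 (Walk.cons h4 Walk.nil)))).IsCycle := by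
        rw [Walk.cons_isCycle_iff]
        have e1 := h1.ne
        have e2 := h2.ne
        have e3 := h3.ne
        have e4 := h4.ne
        refine ⟨?_, ?_⟩
        · simp [Walk.cons_isPath_iff, e2, e3, e4, hac.symm, hbd, e1.symm]
        · simp only [Walk.edges_cons, Walk.edges_nil, List.mem_cons, List.not_mem_nil, or_false,
            Sym2.eq_iff, not_or]
          tauto
      have := h a _ hc
      simp at this
  · rintro ⟨h3, h4⟩ v c hc
    by_contra hlt
    have h3' := hc.three_le_length
    have hnd := hc.support_nodup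
    match c, hc, hlt, h3', hnd with
    | .cons h1 (.cons h2 (.cons h3' .nil)), _, _, _, _ => exact h3 _ _ _ h1 h2 h3'
    | .cons (v := b) h1 (.cons (v := c) h2 (.cons (v := d) h3' (.cons h4' .nil))), _, _, _, hnd =>
      refine h4 _ _ _ _ ?_ ?_ h1 h2 h3' h4'
      · rintro rfl
        simp at hnd
      · rintro rfl
        simp at hnd
    | .cons _ (.cons _ (.cons _ (.cons _ (.cons _ w)))), _, hlt, _, _ =>
      exact hlt (by simp only [Walk.length_cons]; omega)

section pendant

variable {G : SimpleGraph V} {u : V} {m : ℕ}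

@[simp] theorem ap_ll (a b : V) : (addPendants G u m).Adj (.inl a) (.inl b) ↔ G.Adj a b := Iff.rfl
@[simp] theorem ap_lr (a : V) (i : Fin m) : (addPendants G u m).Adj (.inl a) (.inr i) ↔ a = u :=
  Iff.rfl
@[simp] theorem ap_rl (a : V) (i : Fin m) : (addPendants G u m).Adj (.inr i) (.inl a) ↔ a = u :=
  Iff.rfl
@[simp] theorem ap_rr (i j : Fin m) : (addPendants G u m).Adj (.inr i) (.inr j) ↔ False :=
  Iff.rfl

theorem addPendants_noShortCycle (h : NoShortCycle G) : NoShortCycle (addPendants G u m) := by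
  rw [noShortCycle_iff] at h ⊢
  obtain ⟨h3, h4⟩ := h
  refine ⟨?_, ?_⟩
  · rintro (a | i) (b | j) (c | k) e1 e2 e3 <;> simp_all
    exact h3 _ _ _ e1 e2 e3
  · rintro (a | i) (b | j) (c | k) (d | l) hac hbd e1 e2 e3 e4 <;> simp_all
    exact h4 _ _ _ _ hac hbd e1 e2 e3 e4

theorem sq_ll (a b : V) : (square (addPendants G u m)).Adj (.inl a) (.inl b) ↔
    (square G).Adj a b := by
  simp only [square, ne_eq, Sum.inl.injEq, ap_ll, Sum.exists, ap_lr, ap_rl]
  constructor
  · rintro ⟨h, h' | ⟨w, h1, h2⟩ | ⟨i, h1, h2⟩⟩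
    · exact ⟨h, Or.inl h'⟩
    · exact ⟨h, Or.inr ⟨w, h1, h2⟩⟩
    · exact absurd (h1.trans h2.symm) h
  · rintro ⟨h, h' | ⟨w, h1, h2⟩⟩
    · exact ⟨h, Or.inl h'⟩
    · exact ⟨h, Or.inr (Or.inl ⟨w, h1, h2⟩)⟩

theorem sq_lr (a : V) (i : Fin m) : (square (addPendants G u m)).Adj (.inl a) (.inr i) ↔
    a = u ∨ G.Adj a u := by
  simp only [square, ne_eq, reduceCtorEq, not_false_eq_true, ap_lr, true_and, Sum.exists, ap_ll,
    ap_rr, and_false, exists_false, or_false]
  constructor
  · rintro (h | ⟨w, h1, rfl⟩)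
    · exact Or.inl h
    · exact Or.inr h1
  · rintro (h | h)
    · exact Or.inl h
    · exact Or.inr ⟨u, h, rfl⟩

theorem sq_rl (a : V) (i : Fin m) : (square (addPendants G u m)).Adj (.inr i) (.inl a) ↔
    a = u ∨ G.Adj a u := by
  rw [SimpleGraph.adj_comm, sq_lr]

theorem sq_rr (i j : Fin m) : (square (addPendants G u m)).Adj (.inr i) (.inr j) ↔ i ≠ j := by
  simp only [square, ne_eq, Sum.inr.injEq, ap_rr, Sum.exists, ap_rl, ap_lr, and_self,
    exists_eq, exists_false, or_false, false_or, and_true]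

/-- Adding pendant vertices at a vertex of degree at least `3` keeps the square `4`-connected. -/
theorem addPendants_kConnected [Finite V] (hu : 3 ≤ (G.neighborSet u).ncard)
    (h : KConnected 4 (square G)) : KConnected 4 (square (addPendants G u m)) := by
  obtain ⟨h1, h2⟩ := h
  refine ⟨?_, ?_⟩
  · rw [Nat.card_sum]; omega
  intro S hS hS4
  set S' : Set V := Sum.inl ⁻¹' S with hS'
  have hS'f : S'.Finite := hS.preimage Sum.inl_injective.injOn
  have hS'c : S'.ncard < 4 := by
    refine lt_of_le_of_lt ?_ hS4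
    have : Sum.inl '' S' ⊆ S := by
      rintro _ ⟨x, hx, rfl⟩; exact hx
    calc S'.ncard = (Sum.inl (β := Fin m) '' S').ncard :=
          (Set.ncard_image_of_injective _ Sum.inl_injective).symm
      _ ≤ S.ncard := Set.ncard_le_ncard this hS
  have hc := h2 S' hS'f hS'c
  -- a vertex of the clique at `u` that is not deleted
  have hclq : ∃ a, (a = u ∨ G.Adj a u) ∧ a ∉ S' := by
    by_contra hcon
    push Not at hcon
    have hsub : insert u (G.neighborSet u) ⊆ S' := by
      rintro x (rfl | hx)
      · exact hcon _ (Or.inl rfl)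
      · exact hcon _ (Or.inr ((G.mem_neighborSet _ _).1 hx).symm)
    have hnm : u ∉ G.neighborSet u := by simp
    have := Set.ncard_le_ncard hsub hS'f
    rw [Set.ncard_insert_of_notMem hnm (Set.toFinite _)] at this
    omega
  obtain ⟨a₀, ha₀, ha₀S⟩ := hclq
  have hlift : ∀ (x y : (S'ᶜ : Set V)), ((square G).induce S'ᶜ).Reachable x y →
      ((square (addPendants G u m)).induce Sᶜ).Reachable ⟨.inl x.1, x.2⟩ ⟨.inl y.1, y.2⟩ := by
    rintro x y ⟨w⟩
    induction w with
    | nil => exact Reachable.refl _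
    | @cons x y z h _ ih =>
      refine Reachable.trans (Adj.reachable ?_) ih
      rw [SimpleGraph.comap_adj] at h ⊢
      exact (sq_ll _ _).2 h
  have hbase : ∀ z : (Sᶜ : Set (V ⊕ Fin m)),
      ((square (addPendants G u m)).induce Sᶜ).Reachable z ⟨.inl a₀, ha₀S⟩ := by
    rintro ⟨z, hz⟩
    rcases z with x | i
    · exact hlift ⟨x, hz⟩ ⟨a₀, ha₀S⟩ (hc.preconnected _ _)
    · refine Adj.reachable ?_
      rw [SimpleGraph.comap_adj]
      exact (sq_rl _ _).2 ha₀
  have : Nonempty (Sᶜ : Set (V ⊕ Fin m)) := ⟨⟨.inl a₀, ha₀S⟩⟩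
  refine SimpleGraph.Connected.mk fun x y => (hbase x).trans (hbase y).symm

end pendant

/-- In a spanning tree of `k G` every leaf of `G` is covered by a copy of its only edge. -/
theorem leaf_covered {G : SimpleGraph V} {k : ℕ} {x u : V} (hxu : ∀ y, G.Adj x y → y = u)
    (hne : x ≠ u) {T : Set (CopyEdges k G)}
    (hT : IsSpanningTree (copyEnds k G) T) : ∃ e ∈ T, (e.1 : Sym2 V) = s(x, u) := by
  obtain ⟨-, -, hT⟩ := hT
  obtain ⟨w⟩ := hT.connected.preconnected x u
  cases w with
  | nil => exact absurd rfl hne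
  | @cons _ y _ h _ =>
    rw [SimpleGraph.fromEdgeSet_adj] at h
    obtain ⟨⟨e, he, hxy⟩, -⟩ := h
    have h1 : G.Adj x y := by
      have := e.1.2
      rw [← SimpleGraph.mem_edgeSet, ← hxy]
      exact this
    refine ⟨e, he, ?_⟩
    rw [← hxu y h1]
    exact hxy

/-- If `G` has a vertex of degree at most one then `5 G` does not contain six edge-disjoint
spanning trees. -/
theorem not_six_of_leaf {G : SimpleGraph V} {x u : V} (hxu : ∀ y, G.Adj x y → y = u)
    (hne : x ≠ u) (D : Set (CopyEdges 5 G)) : ¬ KTreeConnected 6 (copyEnds 5 G) D := by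
  rintro ⟨T, -, hdis, hT⟩
  choose e he1 he2 using fun i => leaf_covered hxu hne (hT i)
  have hninj : ¬ Function.Injective (fun i : Fin 6 => (e i).2) := by
    intro hinj
    have := Fintype.card_le_of_injective _ hinj
    simp at this
  apply hninj
  intro i j hij
  by_contra hne'
  refine Set.disjoint_left.1 (hdis i j hne') (he1 i) ?_
  have : e i = e j := by
    refine Prod.ext (Subtype.ext ?_) hij
    rw [he2, he2]
  rw [this]
  exact he1 j

end Pool.Agent.W2helper96.Sq
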