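import Mathlib

set_option autoImplicit false

/-! # Squares of graphs, connectivity, global rigidity in `ℝ³`, disjoint spanning trees

The definitions of the question on global rigidity of squares of graphs of girth at least five. -/

namespace Pool.Agent.W2helper96.Sq

/-- The square of a simple graph: two different vertices are adjacent when their distance is at
most `2`, that is, when they are adjacent or have a common neighbour. -/
def square {V : Type*} (G : SimpleGraph V) : SimpleGraph V where
  Adj u v := u ≠ v ∧ (G.Adj u v ∨ ∃ w, G.Adj u w ∧ G.Adj w v)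
  symm := ⟨by
    rintro u v ⟨h, h'⟩
    refine ⟨h.symm, ?_⟩
    rcases h' with h' | ⟨w, h1, h2⟩
    · exact Or.inl h'.symm
    · exact Or.inr ⟨w, h2.symm, h1.symm⟩⟩
  loopless := ⟨by
    rintro u ⟨h, -⟩
    exact h rfl⟩

/-- The graph contains no cycle of length at most `4`. -/
def NoShortCycle {V : Type*} (G : SimpleGraph V) : Prop :=
  ∀ (v : V) (c : G.Walk v v), c.IsCycle → 5 ≤ c.length

/-- The graph `H` is `k`-connected: it has more than `k` vertices and deleting fewer than `k`
vertices leaves a connected graph. -/
def KConnected {V : Type*} (k : ℕ) (H : SimpleGraph V) : Prop :=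
  k < Nat.card V ∧ ∀ S : Set V, S.Finite → S.ncard < k → (H.induce Sᶜ).Connected

/-- Three-dimensional space. -/
abbrev E3 : Type := EuclideanSpace ℝ (Fin 3)

/-- A configuration `p : V → ℝ³` is generic if its `3 |V|` coordinates are algebraically
independent over `ℚ`. -/
def IsGeneric {V : Type*} (p : V → E3) : Prop :=
  AlgebraicIndependent ℚ (fun i : V × Fin 3 => p i.1 i.2)

/-- The framework `(H, p)` is globally rigid in `ℝ³`: every `q` with the same edge lengths has the
same distances between all pairs of vertices. -/
def FrameworkGloballyRigid {V : Type*} (H : SimpleGraph V) (p : V → E3) : Prop :=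
  ∀ q : V → E3, (∀ u v, H.Adj u v → ‖q u - q v‖ = ‖p u - p v‖) →
    ∀ u v, ‖q u - q v‖ = ‖p u - p v‖

/-- The graph `H` is generically globally rigid in `ℝ³`: there are generic configurations, and
`(H, p)` is globally rigid for every generic `p`. -/
def GloballyRigid {V : Type*} (H : SimpleGraph V) : Prop :=
  (∃ p : V → E3, IsGeneric p) ∧ ∀ p : V → E3, IsGeneric p → FrameworkGloballyRigid H p

/-- A multigraph on the vertex set `V` is given by the set `E` of its edges and the pair
`ends e` of end vertices of each edge `e`. `T` is the edge set of a spanning tree: no two edges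
of `T` are parallel, none is a loop, and they form a tree on `V`. -/
def IsSpanningTree {V E : Type*} (ends : E → Sym2 V) (T : Set E) : Prop :=
  (∀ e ∈ T, ¬ (ends e).IsDiag) ∧ Set.InjOn ends T ∧ (SimpleGraph.fromEdgeSet (ends '' T)).IsTree

/-- The edges in `D` contain `k` edge-disjoint spanning trees. -/
def KTreeConnected {V E : Type*} (k : ℕ) (ends : E → Sym2 V) (D : Set E) : Prop :=
  ∃ T : Fin k → Set E, (∀ i, T i ⊆ D) ∧ (∀ i j, i ≠ j → Disjoint (T i) (T j)) ∧
    ∀ i, IsSpanningTree ends (T i)

/-- The edges of the multigraph `k G`: `k` copies of every edge of `G`. -/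
abbrev CopyEdges {V : Type*} (k : ℕ) (G : SimpleGraph V) : Type _ := G.edgeSet × Fin k

/-- The ends of an edge of `k G`. -/
def copyEnds {V : Type*} (k : ℕ) (G : SimpleGraph V) (e : CopyEdges k G) : Sym2 V := e.1

/-- The multigraph `5 G` is highly `6`-tree-connected: deleting any single edge leaves a
multigraph with six edge-disjoint spanning trees. -/
def HighlySixTreeConnected {V : Type*} (G : SimpleGraph V) : Prop :=
  KTreeConnected 6 (copyEnds 5 G) Set.univ ∧
    ∀ e : CopyEdges 5 G, KTreeConnected 6 (copyEnds 5 G) {e}ᶜ

/-- The graph obtained from `G` by adding `m` new vertices, each of them joined only to `u`. -/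
def addPendants {V : Type*} (G : SimpleGraph V) (u : V) (m : ℕ) : SimpleGraph (V ⊕ Fin m) where
  Adj
    | Sum.inl a, Sum.inl b => G.Adj a b
    | Sum.inl a, Sum.inr _ => a = u
    | Sum.inr _, Sum.inl b => b = u
    | Sum.inr _, Sum.inr _ => False
  symm := ⟨by
    rintro (a | i) (b | j) h
    · exact SimpleGraph.Adj.symm (G := G) h
    · exact h
    · exact h
    · exact h⟩
  loopless := ⟨by
    rintro (a | i) h
    · exact G.loopless.irrefl _ h
    · exact h⟩

end Pool.Agent.W2helper96.Sq
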