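import Pool.Agent.W2helper96.Sq.Comb
import Pool.Agent.H135R2.VS.Frame

set_option autoImplicit false

/-! # Adding vertices of degree at least four to generic globally rigid frameworks -/

namespace Pool.Agent.W2helper96.Sq

open SimpleGraph Set
open scoped RealInnerProductSpace

/-- Inner products are determined by those with a spanning family. -/
theorem inner_key {E : Type*} [NormedAddCommGroup E] [InnerProductSpace ℝ E] {ι : Type*} [Fintype ι]
    {v v' : ι → E} {x x' y y' : E} (hxs : x ∈ Submodule.span ℝ (range v))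
    (hg : ∀ i j, ⟪v i, v j⟫ = ⟪v' i, v' j⟫) (hx : ∀ i, ⟪x, v i⟫ = ⟪x', v' i⟫)
    (hxx : ⟪x, x⟫ = ⟪x', x'⟫) (hy : ∀ i, ⟪v i, y⟫ = ⟪v' i, y'⟫) : ⟪x, y⟫ = ⟪x', y'⟫ := by
  obtain ⟨c, rfl⟩ := (Submodule.mem_span_range_iff_exists_fun ℝ).1 hxs
  have h1 : ∀ i, ⟪∑ j, c j • v' j, v' i⟫ = ⟪x', v' i⟫ := by
    intro i
    rw [← hx i]
    simp only [sum_inner, inner_smul_left]
    exact Finset.sum_congr rfl fun j _ => by rw [hg]
  have h2 : ⟪∑ j, c j • v' j, ∑ j, c j • v' j⟫ = ⟪x', x'⟫ := by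
    rw [← hxx]
    simp only [sum_inner, inner_sum, inner_smul_left, inner_smul_right, hg]
  have h3 : ⟪x', ∑ j, c j • v' j⟫ = ⟪x', x'⟫ := by
    rw [← h2]
    conv_lhs => rw [inner_sum]
    conv_rhs => rw [inner_sum]
    refine Finset.sum_congr rfl fun i _ => ?_
    rw [inner_smul_right, inner_smul_right, h1]
  have h4 : ⟪x' - ∑ j, c j • v' j, x' - ∑ j, c j • v' j⟫ = 0 := by
    have h3' : ⟪∑ j, c j • v' j, x'⟫ = ⟪x', x'⟫ := by rw [real_inner_comm, h3]
    rw [inner_sub_left, inner_sub_right, inner_sub_right, h3, h2, h3']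
    ring
  have h5 : x' = ∑ j, c j • v' j := by
    rw [inner_self_eq_zero] at h4
    exact sub_eq_zero.1 h4
  rw [h5, sum_inner, sum_inner]
  refine Finset.sum_congr rfl fun i _ => ?_
  rw [inner_smul_left, inner_smul_left, hy]

/-- Four generic points span the space affinely. -/
theorem span_top {V : Type*} [Finite V] {p : V → E3} (hp : IsGeneric p) {u : V}
    {a : Fin 3 → V} (ha : Function.Injective a) (hu : ∀ i, a i ≠ u) (x : E3) :
    x ∈ Submodule.span ℝ (range fun i => p (a i) - p u) := by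
  classical
  have := Fintype.ofFinite V
  set K := Submodule.span ℝ (range fun i => p (a i) - p u) with hK
  have hbot : Kᗮ = ⊥ := by
    rw [Submodule.eq_bot_iff]
    intro w hw
    have hw' : ∀ i, ⟪p (a i) - p u, w⟫ = 0 := fun i =>
      (Submodule.mem_orthogonal K w).1 hw _ (Submodule.subset_span ⟨i, rfl⟩)
    have hp' : Pool.Agent.H135R2.VS.Gen (fun i k => p i k) := hp
    have hX : 3 + 1 ≤ (insert u (Finset.univ.image a)).card := by
      rw [Finset.card_insert_of_notMem, Finset.card_image_of_injective _ ha]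
      · simp
      · simp [hu]
    have hdot : ∀ z : E3, ⟪z, w⟫ = (fun k => w k) ⬝ᵥ (fun k => z k) := by
      intro z
      simp [PiLp.inner_apply, dotProduct]
    have h := hp'.affine_inj hX (a := fun k => w k) (b := - ⟪p u, w⟫) (by
      intro i hi
      rw [Finset.mem_insert, Finset.mem_image] at hi
      rw [← hdot]
      rcases hi with rfl | ⟨j, -, rfl⟩
      · ring
      · have := hw' j
        rw [inner_sub_left] at this
        linarith)
    ext k
    exact congrFun h.1 k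
  have : K = ⊤ := (Submodule.orthogonal_eq_bot_iff).1 hbot
  rw [this]
  trivial

theorem inner_of_norm {x y x' y' z z' : E3} (h1 : ‖x' - z'‖ = ‖x - z‖) (h2 : ‖y' - z'‖ = ‖y - z‖)
    (h3 : ‖x' - y'‖ = ‖x - y‖) : ⟪x - z, y - z⟫ = ⟪x' - z', y' - z'⟫ := by
  have e1 := @norm_sub_sq_real E3 _ _ (x - z) (y - z)
  have e2 := @norm_sub_sq_real E3 _ _ (x' - z') (y' - z')
  rw [sub_sub_sub_cancel_right] at e1 e2
  rw [h1, h2, h3] at e2
  linarith

theorem norm_of_inner {x y x' y' z z' : E3} (h1 : ‖x' - z'‖ = ‖x - z‖) (h2 : ‖y' - z'‖ = ‖y - z‖)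
    (h3 : ⟪x - z, y - z⟫ = ⟪x' - z', y' - z'⟫) : ‖x' - y'‖ = ‖x - y‖ := by
  have e1 := @norm_sub_sq_real E3 _ _ (x - z) (y - z)
  have e2 := @norm_sub_sq_real E3 _ _ (x' - z') (y' - z')
  rw [sub_sub_sub_cancel_right] at e1 e2
  rw [h1, h2, ← h3, ← e1] at e2
  exact (sq_eq_sq₀ (norm_nonneg _) (norm_nonneg _)).1 e2

/-- Distances between points with prescribed distances to four generic points. -/
theorem dist_key {V : Type*} [Finite V] {p q : V → E3} (hp : IsGeneric p) {u : V}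
    {a : Fin 3 → V} (ha : Function.Injective a) (hu : ∀ i, a i ≠ u)
    (h0 : ∀ i, ‖q (a i) - q u‖ = ‖p (a i) - p u‖)
    (h1 : ∀ i j, ‖q (a i) - q (a j)‖ = ‖p (a i) - p (a j)‖) {x x' y y' : E3}
    (hxu : ‖x' - q u‖ = ‖x - p u‖) (hxa : ∀ i, ‖x' - q (a i)‖ = ‖x - p (a i)‖)
    (hyu : ‖y' - q u‖ = ‖y - p u‖) (hya : ∀ i, ‖y' - q (a i)‖ = ‖y - p (a i)‖) :
    ‖x' - y'‖ = ‖x - y‖ := by
  refine norm_of_inner hxu hyu ?_
  refine inner_key (v := fun i => p (a i) - p u) (v' := fun i => q (a i) - q u)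
    (span_top hp ha hu _) (fun i j => inner_of_norm (h0 i) (h0 j) (h1 i j))
    (fun i => inner_of_norm hxu (h0 i) (hxa i)) ?_
    (fun i => inner_of_norm (h0 i) hyu ?_)
  · exact inner_of_norm hxu hxu (by simp)
  · rw [norm_sub_rev, hya i, norm_sub_rev]

theorem exists_isGeneric (V : Type*) [Finite V] : ∃ p : V → E3, IsGeneric p := by
  obtain ⟨x, -, hx⟩ := Pool.Agent.H135R2.VS.exists_algInd (ι := V × Fin 3) (K := ⊥)
    isOpen_univ ⟨0, trivial⟩
  exact ⟨fun v => WithLp.toLp 2 fun k => x (v, k), Pool.Agent.H135R2.VS.rat_of_sf hx⟩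

/-- Adding pendant vertices at a vertex of degree at least `3` keeps the square globally rigid. -/
theorem addPendants_globallyRigid {V : Type*} [Finite V] {G : SimpleGraph V} {u : V} {m : ℕ}
    (hu : 3 ≤ (G.neighborSet u).ncard) (h : GloballyRigid (square G)) :
    GloballyRigid (square (addPendants G u m)) := by
  refine ⟨exists_isGeneric _, ?_⟩
  intro p hp q hq
  obtain ⟨-, h⟩ := h
  have hp0 : IsGeneric (fun v => p (Sum.inl v)) :=
    hp.comp (fun i : V × Fin 3 => ((Sum.inl i.1, i.2) : (V ⊕ Fin m) × Fin 3)) (by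
      rintro ⟨a, i⟩ ⟨b, j⟩ hab
      simpa using hab)
  have hll : ∀ x y : V, ‖q (.inl x) - q (.inl y)‖ = ‖p (.inl x) - p (.inl y)‖ :=
    h _ hp0 (fun v => q (Sum.inl v)) (fun x y hxy => hq _ _ ((sq_ll x y).2 hxy))
  -- three neighbours of `u`
  obtain ⟨a, ha, haN⟩ : ∃ a : Fin 3 → V, Function.Injective a ∧ ∀ i, G.Adj u (a i) := by
    have hfin : (G.neighborSet u).Finite := Set.toFinite _
    have := Fintype.ofFinite (G.neighborSet u)
    have hc : Fintype.card (Fin 3) ≤ Fintype.card (G.neighborSet u) := by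
      rw [← Nat.card_eq_fintype_card (α := G.neighborSet u), Nat.card_coe_set_eq]
      simpa using hu
    obtain ⟨f⟩ := Function.Embedding.nonempty_of_card_le hc
    exact ⟨fun i => (f i).1, fun i j hij => f.injective (Subtype.ext hij), fun i => (f i).2⟩
  have hau : ∀ i, a i ≠ u := fun i => (haN i).ne'
  have hru : ∀ i, ‖q (.inr i) - q (.inl u)‖ = ‖p (.inr i) - p (.inl u)‖ := fun i =>
    hq _ _ ((sq_rl u i).2 (Or.inl rfl))
  have hra : ∀ i j, ‖q (.inr i) - q (.inl (a j))‖ = ‖p (.inr i) - p (.inl (a j))‖ := fun i j =>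
    hq _ _ ((sq_rl _ i).2 (Or.inr (haN j).symm))
  have hrl : ∀ (i : Fin m) (y : V), ‖q (.inr i) - q (.inl y)‖ = ‖p (.inr i) - p (.inl y)‖ :=
    fun i y => dist_key (p := fun v => p (.inl v)) (q := fun v => q (.inl v)) hp0 ha hau
      (fun i => hll _ _) (fun i j => hll _ _) (hru i) (hra i) (hll _ _) (fun i => hll _ _)
  rintro (x | i) (y | j)
  · exact hll x y
  · rw [norm_sub_rev, hrl, norm_sub_rev]
  · exact hrl i y
  · by_cases hij : i = j
    · subst hij; simp
    · exact hq _ _ ((sq_rr i j).2 hij)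

end Pool.Agent.W2helper96.Sq
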